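import Pool.Agent.Helper98.GX.St3

/-!
# Project GX (MP_140278_ag), module EQ1: consequences of equality, part 1
-/

set_option autoImplicit false

open scoped BigOperators

namespace Pool.Agent.Helper27.GX

open Pool.Agent.Helper98.GX
open Pool.Agent.Helper53.CX (DivVal LinSys IsNefCartier)

/-- EQ1: consequences of equality, part 1 -/
theorem hEQ1 (hSUM : StSUM) (hCBV : StCBV) (hCBY : StCBY) (hCBR : StCBR) (hCBS : StCBS)
    (hRNK : StRNK) : StEQ1 := by
  classical
  intro K _ _ n L V0 V r B SC ι _ p hp hV0 C hC ρ hρ heq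
  by_cases hE : Nonempty (DivVal K)
  · obtain ⟨w⟩ := hE
    obtain ⟨E, hκ, -, hlam⟩ := hCBV K V0 r B w
    obtain ⟨ρ0, hρ0⟩ : ∃ ρ0 : ℕ, Module.rank ℝ (Cl V0.primes) = (ρ0 : Cardinal) :=
      Cardinal.lt_aleph0.1 ((hCBS K V0 r B).trans_lt (Cardinal.natCast_lt_aleph0))
    have hrle := hCBR K V0 r B ρ0 hρ0
    obtain ⟨Y, hY, hYs⟩ := hCBY K V0 r B n L SC
    obtain ⟨⟨F, hF, hF0, hFs⟩, hlog⟩ := hSUM K n L V0 E ι V.primes p hp hV0
    have h2 := hlog Y hY
    have h3 : E.logDisc L ≤ (n : ℤ) + r := by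
      have h4 : ∑ q ∈ Y, (E.lam q : ℤ) = ((∑ q ∈ Y, ∑ k, B.deg q k : ℕ) : ℤ) := by
        rw [Nat.cast_sum]
        exact Finset.sum_congr rfl fun q _ => by rw [hlam q]
      rw [hκ, h4] at h2
      have h5 : ((∑ q ∈ Y, ∑ k, B.deg q k : ℕ) : ℤ) ≤ ((n + r : ℕ) : ℤ) := by
        exact_mod_cast hYs
      push_cast at h2 h5 ⊢
      linarith
    have h6 : (E.logDisc L : ℝ) ≤ (n : ℝ) + r := by exact_mod_cast h3
    have h7 : (r : ℝ) ≤ ρ0 := by exact_mod_cast hrle
    set D := C.filter (fun v => ¬ v ∈ V0.primes) with hD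
    set Q := F.filter (fun v => ¬ v ∈ V.primes) with hQ
    have hQm : ∀ q ∈ V0.primes, q ∉ V.primes → q ∈ Q := by
      intro q hq hqV
      rw [hQ, Finset.mem_filter]
      refine ⟨?_, hqV⟩
      by_contra hqF
      have e0 := hF0 q hq hqF
      rcases hV0 q hq with h | h
      · exact hqV h
      · rw [h] at e0
        exact one_ne_zero e0
    have hDm : ∀ t ∈ D, t ∈ V.primes ∧ t ∉ V0.primes := by
      intro t ht
      rw [hD, Finset.mem_filter] at ht
      exact ⟨hC ht.1, ht.2⟩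
    have e1 : ∑ v ∈ C, p.B L v =
        ∑ v ∈ C.filter (fun v => v ∈ V0.primes), p.B L v + ∑ v ∈ D, p.B L v := by
      rw [hD]
      exact (Finset.sum_filter_add_sum_filter_not C _ _).symm
    have e2 : ∑ v ∈ D, p.B L v ≤ (D.card : ℝ) := by
      calc ∑ v ∈ D, p.B L v ≤ ∑ v ∈ D, (1 : ℝ) := Finset.sum_le_sum (fun v _ => hp.glc v)
        _ = (D.card : ℝ) := by simp
    have e3 : ∑ v ∈ C.filter (fun v => v ∈ V0.primes), p.B L v ≤
        ∑ v ∈ F.filter (fun v => v ∈ V.primes), p.B L v := by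
      have h : ∑ v ∈ (C.filter (fun v => v ∈ V0.primes)).filter (fun v => v ∈ F), p.B L v =
          ∑ v ∈ C.filter (fun v => v ∈ V0.primes), p.B L v := by
        apply Finset.sum_filter_of_ne
        intro v hv hne
        by_contra hvF
        exact hne (hF0 v (Finset.mem_filter.1 hv).2 hvF)
      rw [← h]
      apply Finset.sum_le_sum_of_subset_of_nonneg
      · intro v hv
        rw [Finset.mem_filter, Finset.mem_filter] at hv
        exact Finset.mem_filter.2 ⟨hv.2, hC hv.1.1⟩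
      · intro v hv _
        exact hp.effective v (Finset.mem_filter.1 hv).2
    have e4 : ∑ v ∈ F, p.B L v =
        ∑ v ∈ F.filter (fun v => v ∈ V.primes), p.B L v + ∑ v ∈ Q, p.B L v := by
      rw [hQ]
      exact (Finset.sum_filter_add_sum_filter_not F _ _).symm
    have e5 : ∑ v ∈ Q, p.B L v = (Q.card : ℝ) := by
      calc ∑ v ∈ Q, p.B L v = ∑ v ∈ Q, (1 : ℝ) := by
            refine Finset.sum_congr rfl (fun v hv => ?_)
            rw [hQ, Finset.mem_filter] at hv
            rcases hV0 v (hF hv.1) with h | h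
            · exact absurd h hv.2
            · exact h
        _ = (Q.card : ℝ) := by simp
    refine ⟨?_, F, hF, hF0, ?_⟩
    · intro v hv
      by_cases hv0 : v ∈ V0.primes
      · exact Or.inl hv0
      · right
        have hr : (insert v D).card + ρ0 ≤ ρ + Q.card := by
          refine hRNK K V0 V (insert v D) Q ρ0 ρ ?_ hQm hρ0 hρ
          intro t ht
          rcases Finset.mem_insert.1 ht with h | h
          · rw [h]
            exact ⟨hv, hv0⟩
          · exact hDm t h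
        have hr' : ((insert v D).card : ℝ) + (ρ0 : ℝ) ≤ (ρ : ℝ) + (Q.card : ℝ) := by
          exact_mod_cast hr
        have hk : ((insert v D).card : ℝ) ≤ ∑ v ∈ D, p.B L v := by linarith
        have hvD : v ∈ D := by
          by_contra hvD
          rw [Finset.card_insert_of_notMem hvD] at hk
          push_cast at hk
          linarith
        rw [Finset.insert_eq_of_mem hvD] at hk
        by_contra hne
        have hlt : p.B L v < 1 := lt_of_le_of_ne (hp.glc v) hne
        have hs : ∑ v ∈ D, p.B L v < ∑ v ∈ D, (1 : ℝ) :=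
          Finset.sum_lt_sum (fun v _ => hp.glc v) ⟨v, hvD, hlt⟩
        have hc : ∑ v ∈ D, (1 : ℝ) = (D.card : ℝ) := by simp
        linarith
    · have hr : D.card + ρ0 ≤ ρ + Q.card := hRNK K V0 V D Q ρ0 ρ hDm hQm hρ0 hρ
      have hr' : (D.card : ℝ) + (ρ0 : ℝ) ≤ (ρ : ℝ) + (Q.card : ℝ) := by exact_mod_cast hr
      linarith
  · have hι : IsEmpty ι := ⟨fun i => hp.nontrivial i
      ⟨⟨{1}, ⟨1, by simp⟩, by simp⟩, fun m _ => ⟨1, 1, le_refl _, one_ne_zero,
        fun v => (hE ⟨v⟩).elim⟩⟩⟩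
    have hC0 : ∑ v ∈ C, p.B L v = 0 := Finset.sum_eq_zero fun v _ => (hE ⟨v⟩).elim
    have hb0 : ∑ i, p.b i = 0 := Finset.sum_eq_zero fun i _ => (hι.false i).elim
    have hr0 : r = 0 := by
      by_contra hr
      have ha := B.indep (fun _ => 1) 1 one_ne_zero (fun q _ => (hE ⟨q⟩).elim)
      have := congrFun ha ⟨0, Nat.pos_of_ne_zero hr⟩
      simp at this
    refine ⟨fun v _ => (hE ⟨v⟩).elim, ∅, by simp, fun q _ _ => (hE ⟨q⟩).elim, ?_⟩
    rw [hb0, Finset.sum_empty, hr0]
    rw [hC0, hb0] at heq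
    have h0 : (0 : ℝ) ≤ (ρ : ℝ) := Nat.cast_nonneg _
    push_cast
    linarith

end Pool.Agent.Helper27.GX
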