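import Pool.Agent.Helper98.GX.St4

/-!
# Project GX (MP_140278_ag), module TRO: transport by an isomorphism
-/

set_option autoImplicit false

open scoped BigOperators

namespace Pool.Agent.Helper27.GX

open Pool.Agent.Helper98.GX
open Pool.Agent.Helper53.CX (DivVal LinSys IsNefCartier)

/-- pull back of a divisorial valuation by an isomorphism of fields -/
private def gpull {K1 K2 : Type} [Field K1] [Algebra ℂ K1] [Field K2] [Algebra ℂ K2]
    (τ : K1 ≃ₐ[ℂ] K2) (v : DivVal K2) : DivVal K1 where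
  ord f := v.ord (τ f)
  ord_zero := by simp [v.ord_zero]
  ord_mul f g hf hg := by
    simp only [map_mul]
    exact v.ord_mul _ _ (by simpa using hf) (by simpa using hg)
  ord_add f g hf hg hfg := by
    simp only [map_add]
    refine v.ord_add _ _ (by simpa using hf) (by simpa using hg) ?_
    rw [← map_add]
    exact fun h => hfg (by
      apply τ.injective
      rw [h, map_zero])
  exists_one := by
    obtain ⟨t, ht, h1⟩ := v.exists_one
    exact ⟨τ.symm t, by simpa using ht, by simpa using h1⟩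
  exists_model := by
    obtain ⟨R, hR, h0, h1⟩ := v.exists_model
    refine ⟨R.map (τ.symm : K2 →ₐ[ℂ] K1), hR.map _, ?_, ?_⟩
    · rintro f hf hf0
      obtain ⟨g, hg, rfl⟩ := (Subalgebra.mem_map).1 hf
      have hg0 : g ≠ 0 := by
        rintro rfl
        exact hf0 (by simp)
      simpa using h0 g hg hg0
    · intro f hf hf0
      obtain ⟨a, ha, b, hb, hb0, hb1, hab⟩ := h1 (τ f) (by simpa using hf) hf0
      refine ⟨τ.symm a, (Subalgebra.mem_map).2 ⟨a, ha, rfl⟩, τ.symm b,
        (Subalgebra.mem_map).2 ⟨b, hb, rfl⟩, by simpa using hb0, by simpa using hb1, ?_⟩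
      apply τ.injective
      simpa using hab

private theorem gpull_ord {K1 K2 : Type} [Field K1] [Algebra ℂ K1] [Field K2] [Algebra ℂ K2]
    (τ : K1 ≃ₐ[ℂ] K2) (v : DivVal K2) (f : K1) : (gpull τ v).ord f = v.ord (τ f) := rfl

private theorem divVal_ext {K : Type} [Field K] [Algebra ℂ K] {v w : DivVal K}
    (h : ∀ f, v.ord f = w.ord f) : v = w := by
  cases v
  cases w
  congr
  exact funext h

/-- transport of a linear system -/
private def gsys {K1 K2 : Type} [Field K1] [Algebra ℂ K1] [Field K2] [Algebra ℂ K2]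
    (τ : K1 ≃ₐ[ℂ] K2) (F : LinSys K1) : LinSys K2 where
  gens := F.gens.map τ.toEquiv.toEmbedding
  nonempty := F.nonempty.map
  ne_zero := by
    intro f hf
    obtain ⟨g, hg, rfl⟩ := Finset.mem_map.1 hf
    have hg0 := F.ne_zero g hg
    simpa using hg0

private theorem gsys_div {K1 K2 : Type} [Field K1] [Algebra ℂ K1] [Field K2] [Algebra ℂ K2]
    (τ : K1 ≃ₐ[ℂ] K2) (F : LinSys K1) (v : DivVal K2) :
    (gsys τ F).div v = F.div (gpull τ v) := by
  unfold LinSys.div gsys
  rw [Finset.sup'_map]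
  rfl

open Classical in
private theorem choose_congr {P Q : ℤ → Prop} (h : P = Q) :
    (if h : ∃ e : ℤ, P e then - h.choose else 0) = (if h : ∃ e : ℤ, Q e then - h.choose else 0) := by
  subst h
  rfl

private theorem x_ne_zero {n : ℕ} (j : Fin n) : (Pool.Agent.Helper53.CX.x j :
    Pool.Agent.Helper53.CX.Kn n) ≠ 0 := by
  unfold Pool.Agent.Helper53.CX.x
  intro h
  exact MvPolynomial.X_ne_zero (R := ℂ) j ((map_eq_zero_iff _ (IsFractionRing.injective
    (Pool.Agent.Helper53.CX.Pn n) (Pool.Agent.Helper53.CX.Kn n))).1 h)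

private theorem theta_smul {n : ℕ} (j : Fin n) (c : ℂ) (f : Pool.Agent.Helper53.CX.Kn n) :
    Pool.Agent.Helper53.CX.theta j (c • f) = c • Pool.Agent.Helper53.CX.theta j f := by
  rw [Algebra.smul_def, Algebra.smul_def, Pool.Agent.Helper53.CX.theta_mul,
    Pool.Agent.Helper53.CX.theta_algebraMap, mul_zero, add_zero]

/-- the transported derivation -/
private noncomputable def der {K : Type} [Field K] [Algebra ℂ K] {n : ℕ}
    (σ : Pool.Agent.Helper53.CX.Kn n ≃ₐ[ℂ] K) (j : Fin n) : Derivation ℂ K K :=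
  Derivation.mk'
    { toFun := fun f => σ (Pool.Agent.Helper53.CX.theta j (σ.symm f))
      map_add' := fun f g => by
        rw [map_add, Pool.Agent.Helper53.CX.theta_add, map_add]
      map_smul' := fun c f => by
        rw [map_smul, theta_smul, map_smul]
        rfl }
    (fun a b => by
      show σ (Pool.Agent.Helper53.CX.theta j (σ.symm (a * b))) =
        a • σ (Pool.Agent.Helper53.CX.theta j (σ.symm b)) +
          b • σ (Pool.Agent.Helper53.CX.theta j (σ.symm a))
      rw [map_mul, Pool.Agent.Helper53.CX.theta_mul, map_add, map_mul, map_mul,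
        AlgEquiv.apply_symm_apply, AlgEquiv.apply_symm_apply, smul_eq_mul, smul_eq_mul])

private theorem der_apply {K : Type} [Field K] [Algebra ℂ K] {n : ℕ}
    (σ : Pool.Agent.Helper53.CX.Kn n ≃ₐ[ℂ] K) (j : Fin n) (f : K) :
    der σ j f = σ (Pool.Agent.Helper53.CX.theta j (σ.symm f)) := rfl

private theorem theta_comp (hUNQ : StUNQ) {K : Type} [Field K] [Algebra ℂ K] {n : ℕ}
    (L : LogCoord K n) (σ : Pool.Agent.Helper53.CX.Kn n ≃ₐ[ℂ] K)
    (hσ : ∀ j, σ (Pool.Agent.Helper53.CX.x j) = L.z j) (j : Fin n)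
    (f : Pool.Agent.Helper53.CX.Kn n) :
    L.θ j (σ f) = σ (Pool.Agent.Helper53.CX.theta j f) := by
  have h := hUNQ K n L (der σ j) (σ f)
  rw [der_apply, AlgEquiv.symm_apply_apply] at h
  rw [h]
  have hz : ∀ i, der σ j (L.z i) = if i = j then L.z i else 0 := by
    intro i
    rw [der_apply, ← hσ i, AlgEquiv.symm_apply_apply, Pool.Agent.Helper53.CX.theta_x]
    split_ifs
    · rfl
    · rw [map_zero]
  have hz0 : ∀ i, L.z i ≠ 0 := by
    intro i
    rw [← hσ i]
    exact (map_ne_zero_iff σ σ.injective).2 (x_ne_zero i)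
  rw [Finset.sum_eq_single j]
  · rw [hz, if_pos rfl, div_self (hz0 j), one_mul]
  · intro b _ hb
    rw [hz, if_neg hb, zero_div, zero_mul]
  · intro hb
    exact absurd (Finset.mem_univ j) hb

private theorem jac_comp (hUNQ : StUNQ) {K : Type} [Field K] [Algebra ℂ K] {n : ℕ}
    (L : LogCoord K n) (σ : Pool.Agent.Helper53.CX.Kn n ≃ₐ[ℂ] K)
    (hσ : ∀ j, σ (Pool.Agent.Helper53.CX.x j) = L.z j)
    (f : Fin n → Pool.Agent.Helper53.CX.Kn n) :
    jac L (fun i => σ (f i)) = σ (Pool.Agent.Helper53.CX.jac f) := by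
  unfold jac Pool.Agent.Helper53.CX.jac
  rw [AlgEquiv.map_det]
  congr 1
  ext i j
  simp only [Matrix.of_apply, AlgEquiv.mapMatrix_apply, Matrix.map_apply]
  exact theta_comp hUNQ L σ hσ j (f i)

private theorem min_iff (hUNQ : StUNQ) {K : Type} [Field K] [Algebra ℂ K] {n : ℕ}
    (L : LogCoord K n) (σ : Pool.Agent.Helper53.CX.Kn n ≃ₐ[ℂ] K)
    (hσ : ∀ j, σ (Pool.Agent.Helper53.CX.x j) = L.z j) (v : DivVal K)
    (v' : DivVal (Pool.Agent.Helper53.CX.Kn n)) (hv : ∀ f, v'.ord f = v.ord (σ f)) (e : ℤ) :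
    Pool.Agent.Helper53.CX.IsJacMin v' e ↔ IsJacMin L v e := by
  constructor
  · rintro ⟨h1, f, hf, hf0, hfe⟩
    refine ⟨?_, fun i => σ (f i), fun i => ?_, ?_, ?_⟩
    · intro g hg hg0
      have hgs : (fun i => σ (σ.symm (g i))) = g := funext fun i => σ.apply_symm_apply _
      have hj := jac_comp hUNQ L σ hσ (fun i => σ.symm (g i))
      rw [hgs] at hj
      rw [hj]
      rw [hj] at hg0
      rw [← hv]
      refine h1 _ (fun i => ?_) (fun h => hg0 (by rw [h, map_zero]))
      rw [hv, σ.apply_symm_apply]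
      exact hg i
    · rw [← hv]
      exact hf i
    · rw [jac_comp hUNQ L σ hσ]
      exact (map_ne_zero_iff σ σ.injective).2 hf0
    · rw [jac_comp hUNQ L σ hσ, ← hv]
      exact hfe
  · rintro ⟨h1, f, hf, hf0, hfe⟩
    have hfs : (fun i => σ (σ.symm (f i))) = f := funext fun i => σ.apply_symm_apply _
    have hj := jac_comp hUNQ L σ hσ (fun i => σ.symm (f i))
    rw [hfs] at hj
    refine ⟨?_, fun i => σ.symm (f i), fun i => ?_, ?_, ?_⟩
    · intro g hg hg0
      rw [hv, ← jac_comp hUNQ L σ hσ]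
      refine h1 _ (fun i => ?_) ?_
      · rw [← hv]
        exact hg i
      · rw [jac_comp hUNQ L σ hσ]
        exact (map_ne_zero_iff σ σ.injective).2 hg0
    · rw [hv, σ.apply_symm_apply]
      exact hf i
    · intro h
      rw [h, map_zero] at hj
      exact hf0 hj
    · rw [hv, ← hj]
      exact hfe

/-- TRO: transport of divisorial valuations, of the top form and of nefness -/
theorem hTRO (hUNQ : StUNQ) : StTRO := by
  intro K _ _ n L σ hσ
  refine ⟨?_, ?_, ?_⟩
  · intro v
    refine ⟨gpull σ v, fun f => rfl, ?_⟩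
    unfold ordOmega Pool.Agent.Helper53.CX.ordOmega
    exact choose_congr (funext fun e => propext
      (min_iff hUNQ L σ hσ v (gpull σ v) (fun f => rfl) e))
  · intro v'
    refine ⟨gpull σ.symm v', fun f => ?_⟩
    rw [gpull_ord, σ.symm_apply_apply]
  · intro M hM
    refine ⟨fun v' => M (gpull σ.symm v'), ?_, ?_⟩
    · obtain ⟨A, hA⟩ := hM
      refine ⟨gsys σ.symm A, fun m hm => ?_⟩
      obtain ⟨N, F, hN, hF⟩ := hA m hm
      refine ⟨N, gsys σ.symm F, hN, fun v' => ?_⟩
      rw [gsys_div, gsys_div]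
      exact hF _
    · intro v v' hv
      have : gpull σ.symm v' = v := by
        apply divVal_ext
        intro f
        rw [gpull_ord, hv, σ.apply_symm_apply]
      show M (gpull σ.symm v') = M v
      rw [this]

end Pool.Agent.Helper27.GX
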